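import Pool.Agent.W900.PM.Comp
import Pool.Agent.W911.KM.Upper
import Pool.Agent.W900.OC.Pos
import Pool.Agent.H591R3.PHG.Cover
import Pool.Agent.H591R3.PHG.LangSig

/-!
# Changing infinitely many strings makes `PSPACE` small
-/

set_option autoImplicit false

namespace Pool.Agent.W900.PM

open Filter MeasureTheory Pool.Agent.NPC Pool.Agent.H620R2.Gauge
open Pool.Agent.W911.KM (NullP join length_str_block eval_le_two_pow)
open Pool.Agent.W911.AL (IsSigma fair)
open Pool.Agent.W900.CH (Close finite_diff ae_far_P)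
open Pool.Agent.W900.RB (close_mono pow_le_exp)
open Pool.Agent.H591R3.PHG (IsSig IsSigPoly lang lang_sig null_of_frequently2)
open Pool.Agent.H628R3.RO (randomOracle)

/-! ## The fragility -/

theorem exists_tasks : ∃ u : ℕ → Option (SAlg × Polynomial ℕ), Function.Surjective u := by
  have h1 := CC.poly_countable
  have h2 := CC.salg_countable
  exact exists_surjective_nat _

theorem cut_congr {n : ℕ} {A A' : Oracle} (h : ∀ z : List Bool, z.length ≤ n → A z = A' z) :
    CC.cut n A = CC.cut n A' := by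
  funext z
  unfold CC.cut
  split_ifs with hz
  · exact h z hz
  · rfl

theorem cut_cut {m n : ℕ} (h : m ≤ n) (A : Oracle) : CC.cut m (CC.cut n A) = CC.cut m A := by
  funext z
  unfold CC.cut
  by_cases hz : z.length ≤ m
  · rw [if_pos hz, if_pos hz, if_pos (hz.trans h)]
  · rw [if_neg hz, if_neg hz]

open Classical in
/-- **Arbitrarily few changes make `PSPACE` small.** -/
theorem exists_close_null {g : ℕ → ℝ} (hg : Tendsto g atTop atTop) (O : Oracle) :
    ∃ A, Close g O A ∧ NullP A {L | IsPSPACE A L} := by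
  obtain ⟨u, hu⟩ := exists_tasks
  -- the lengths
  have hev : ∀ j : ℕ, ∀ᶠ n : ℕ in atTop, (∀ m ≥ n, (j : ℝ) + 1 ≤ g m) ∧
      ∀ M b, u (Nat.unpair j).1 = some (M, b) → b.eval n ≤ 2 ^ n := by
    intro j
    have h1 : ∀ᶠ n : ℕ in atTop, ∀ m ≥ n, (j : ℝ) + 1 ≤ g m := by
      obtain ⟨n₁, hn₁⟩ := eventually_atTop.1 (hg.eventually_ge_atTop ((j : ℝ) + 1))
      filter_upwards [eventually_ge_atTop n₁] with n hn m hm
      exact hn₁ m (hn.trans hm)
    have h2 : ∀ᶠ n : ℕ in atTop, ∀ M b, u (Nat.unpair j).1 = some (M, b) →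
        b.eval n ≤ 2 ^ n := by
      rcases hj : u (Nat.unpair j).1 with _ | ⟨M, b⟩
      · exact Filter.Eventually.of_forall fun n M b h => by simp at h
      · filter_upwards [eval_le_two_pow b] with n hn M' b' h
        simp only [Option.some.injEq, Prod.mk.injEq] at h
        rw [← h.2]
        exact hn
    exact h1.and h2
  obtain ⟨nn, hmono, hP⟩ := Filter.extraction_forall_of_eventually hev
  set T : ℕ → ℕ → Oracle → Bool := fun n i A => decide (∃ (j : ℕ) (M : SAlg)
    (b : Polynomial ℕ), n = nn j ∧ u (Nat.unpair j).1 = some (M, b) ∧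
      CC.Acc M (CC.cut (b.eval n) (CC.cut (2 ^ n) A)) (str (2 ^ n - 1 + i))) with hT
  obtain ⟨A, hA, hsyn⟩ := exists_orc (fun n => ∃ j, n = nn j) T (by
    intro n i A A' h
    rw [hT]
    dsimp only
    rw [cut_congr h]) O
  refine ⟨A, ?_, null_of_syn A _ ?_⟩
  · -- few changes
    unfold Close
    filter_upwards [eventually_gt_atTop (nn 0)] with N hN
    have hex : ∃ j, N ≤ nn j := ⟨N, hmono.le_apply⟩
    have h1 : N ≤ nn (Nat.find hex) := Nat.find_spec hex
    have hpos : 0 < Nat.find hex := by
      rw [Nat.pos_iff_ne_zero]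
      intro h
      rw [h] at h1
      omega
    have h2 : nn (Nat.find hex - 1) < N := by
      have := Nat.find_min hex (m := Nat.find hex - 1) (by omega)
      omega
    have h3 : CH.dist O A N ≤ Nat.find hex := by
      refine dist_orc (Λ := fun n => ∃ j, n = nn j) (T := T) (fun n => Iff.rfl) hmono ?_ h1
      intro z hz
      rw [hA z, if_neg hz]
    have h4 := (hP (Nat.find hex - 1)).1 N h2.le
    have h5 : ((Nat.find hex - 1 : ℕ) : ℝ) + 1 = (Nat.find hex : ℝ) := by
      have h6 : Nat.find hex - 1 + 1 = Nat.find hex := Nat.sub_add_cancel hpos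
      exact_mod_cast h6
    rw [h5] at h4
    refine le_trans ?_ h4
    exact_mod_cast h3
  · -- the predictions
    rintro L ⟨M, p, hM⟩ N
    obtain ⟨b, hb⟩ := pspace_task M p
    obtain ⟨e, he⟩ := hu (some (M, b))
    set j := Nat.pair e (N + 3) with hj
    have hj1 : (Nat.unpair j).1 = e := by rw [hj, Nat.unpair_pair]
    have hj2 : N + 3 ≤ j := Nat.right_le_pair _ _
    have hj3 : j ≤ nn j := hmono.le_apply
    refine ⟨nn j, by omega, fun i hi => ?_⟩
    rw [hsyn (nn j) ⟨j, rfl⟩ i hi]
    have h2 : 2 * nn j ≤ 2 ^ nn j := by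
      obtain ⟨n, hn⟩ : ∃ n', nn j = n' + 1 := ⟨nn j - 1, by omega⟩
      have h4 : n < 2 ^ n := Nat.lt_two_pow_self
      rw [hn, pow_succ]
      omega
    have hlen : (str (2 ^ nn j - 1 + i)).length = nn j := length_str_block (by omega)
    have h3 := hb A L hM (str (2 ^ nn j - 1 + i))
    rw [hlen] at h3
    rw [h3, hT]
    dsimp only
    rw [decide_eq_true_iff]
    have hu1 : u (Nat.unpair j).1 = some (M, b) := by rw [hj1, he]
    have hbn := (hP j).2 M b hu1
    constructor
    · rintro ⟨j', M', b', h4, h5, h6⟩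
      have h7 := hmono.injective h4
      subst h7
      rw [hu1] at h5
      simp only [Option.some.injEq, Prod.mk.injEq] at h5
      obtain ⟨rfl, rfl⟩ := h5
      rwa [cut_cut hbn] at h6
    · intro h6
      refine ⟨j, M, b, rfl, hu1, ?_⟩
      rwa [cut_cut hbn]

/-! ## Finite changes -/

theorem fair_eq : fair = randomOracle := by
  unfold fair Pool.Agent.W911.IB.law randomOracle
  congr 1
  funext w
  unfold Pool.Agent.W911.IB.coin Pool.Agent.H628R3.RO.coin
  congr 2
  · rw [ENNReal.ofReal_div_of_pos (by norm_num)]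
    simp
  · have : (1 : ℝ) - 1 / 2 = 1 / 2 := by norm_num
    show ENNReal.ofReal (1 - 1 / 2) = _
    rw [this, ENNReal.ofReal_div_of_pos (by norm_num)]
    simp

open Classical in
/-- the oracle with finitely many changes -/
noncomputable def flp (D : Finset (List Bool)) (A : Oracle) : Oracle :=
  fun z => if z ∈ D then !(A z) else A z

theorem map_flp (D : Finset (List Bool)) : randomOracle.map (flp D) = randomOracle := by
  classical
  have h1 : flp D = fun (x : Oracle) z => (fun b : Bool => if z ∈ D then !b else b) (x z) := by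
    funext A z
    unfold flp
    split_ifs <;> rfl
  rw [h1]
  unfold randomOracle
  rw [Measure.infinitePi_map_pi (fun _ : List Bool => Pool.Agent.H628R3.RO.coin)
    (f := fun z (b : Bool) => if z ∈ D then !b else b) (fun z => measurable_of_countable _)]
  congr 1
  funext z
  by_cases hz : z ∈ D
  · simp only [hz, if_true]
    unfold Pool.Agent.H628R3.RO.coin
    have hn : Measurable (fun b : Bool => !b) := measurable_of_countable _
    rw [Measure.map_add _ _ hn, Measure.map_smul, Measure.map_smul, Measure.map_dirac' hn,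
      Measure.map_dirac' hn]
    simp only [Bool.not_true, Bool.not_false]
    rw [add_comm]
  · simp only [hz, if_false]
    exact Measure.map_id

theorem ae_finite {P : Oracle → Prop} (h : ∀ᵐ A ∂randomOracle, P A) :
    ∀ᵐ O ∂randomOracle, ∀ A : Oracle, {x | A x ≠ O x}.Finite → P A := by
  classical
  have h1 : ∀ D : Finset (List Bool), ∀ᵐ O ∂randomOracle, P (flp D O) := by
    intro D
    have hm : Measurable (flp D) := by
      rw [measurable_pi_iff]
      intro z
      unfold flp
      by_cases hz : z ∈ D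
      · simp only [hz, if_true]
        exact (measurable_of_countable (fun b : Bool => !b)).comp (measurable_pi_apply z)
      · simp only [hz, if_false]
        exact measurable_pi_apply z
    have h2 : MeasurePreserving (flp D) randomOracle randomOracle := ⟨hm, map_flp D⟩
    exact h2.quasiMeasurePreserving.ae h
  rw [← ae_all_iff] at h1
  filter_upwards [h1] with O hO A hA
  have h2 := hO hA.toFinset
  have h3 : flp hA.toFinset O = A := by
    funext z
    unfold flp
    by_cases hz : A z = O z
    · rw [if_neg (by simpa using hz), hz]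
    · rw [if_pos (by simpa using hz)]
      revert hz
      cases A z <;> cases O z <;> simp
  rwa [h3] at h2

theorem finite_of_close {g : ℕ → ℝ} (hg : ¬ Tendsto g atTop atTop) {O A : Oracle}
    (h : Close g O A) : {x | A x ≠ O x}.Finite := by
  by_contra hinf
  apply hg
  have h1 : Tendsto (fun n => CH.dist O A n) atTop atTop := by
    rw [tendsto_atTop_atTop]
    intro K
    obtain ⟨S, hS, hK⟩ := Set.Infinite.exists_subset_card_eq hinf K
    refine ⟨S.sup List.length, fun n hn => ?_⟩
    unfold CH.dist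
    rw [← hK, ← Set.ncard_coe_finset]
    refine Set.ncard_le_ncard (fun x hx => ?_) (finite_diff O A n)
    exact ⟨(Finset.le_sup (f := List.length) hx).trans hn, hS hx⟩
  exact tendsto_atTop_mono' _ h (tendsto_natCast_atTop_atTop.comp h1)

/-! ## The main theorem -/

theorem small_id (ε : ℝ) (hε : 0 < ε) : ∀ᶠ n : ℕ in atTop, (n : ℝ) ≤ 2 ^ (n : ℝ) ^ ε := by
  filter_upwards [pow_le_exp hε 1] with n hn
  simpa using hn

theorem ae_ph : ∀ᵐ O ∂randomOracle, ∀ A : Oracle, Close (fun n => (n : ℝ)) O A →
    ∀ k, ∃ L, IsSig A (k + 1) L ∧ ¬ IsSigPoly A k L := by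
  have hS : ∀ f : ℕ → ℝ, (∀ ε : ℝ, 0 < ε → ∃ᶠ N : ℕ in Filter.atTop,
      f N ≤ 2 ^ (Real.logb 2 N) ^ ε) →
      Null f {A : Oracle | ∃ k, ∀ L, IsSig A (k + 1) L → IsSigPoly A k L} := by
    intro f hf
    refine null_of_frequently2 f hf _ fun A hA => ?_
    obtain ⟨k, hk⟩ := hA
    exact ⟨k, hk _ (lang_sig A k)⟩
  filter_upwards [ae_far_P (g := fun n => (n : ℝ)) hS (fun ε hε => (small_id ε hε).frequently)]
    with O hO A hA
  have := hO A hA
  push Not at this
  exact this

theorem ae_main : ∀ᵐ O ∂randomOracle,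
    (∀ g : ℕ → ℝ, ¬ Tendsto g atTop atTop → ∀ A, Close g O A → ∀ k j : ℕ,
      (∃ B : Set (List Bool), IsSigma A (fun _ => j) B ∧
        NullP (join A B) {L | IsSigma A (fun _ => k) L}) ↔ k ≤ j) ∧
    ∀ g : ℕ → ℝ, Tendsto g atTop atTop → ∃ A, Close g O A ∧ NullP A {L | IsPSPACE A L} ∧
      (∀ k, ∃ L, IsSig A (k + 1) L ∧ ¬ IsSigPoly A k L) ∧ ∃ f, OC.Hard A f := by
  have h1 := Pool.Agent.W911.KM.exact_ae
  rw [fair_eq] at h1
  filter_upwards [ae_finite h1, ae_ph, OC.ae_est] with O h2 h3 h4
  refine ⟨fun g hg A hA => h2 A (finite_of_close hg hA), fun g hg => ?_⟩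
  have hmin : Tendsto (fun n : ℕ => min (g n) (n : ℝ)) atTop atTop :=
    tendsto_atTop.2 fun K => by
      filter_upwards [hg.eventually_ge_atTop K,
        (tendsto_natCast_atTop_atTop (R := ℝ)).eventually_ge_atTop K] with n h5 h6
      exact le_min h5 h6
  obtain ⟨A, hA, hnull⟩ := exists_close_null hmin O
  have hA1 : Close (fun n => (n : ℝ)) O A := close_mono (fun n => min_le_right _ _) hA
  refine ⟨A, close_mono (fun n => min_le_left _ _) hA, hnull, h3 A hA1, OW.ff A,
    OC.hard_of_close (fun ε hε => ?_) h4 hA1⟩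
  filter_upwards [small_id ε hε] with n hn
  exact ⟨n, le_refl _, hn⟩

end Pool.Agent.W900.PM
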