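import Pool.Agent.W911.KM.Meas
import Pool.Agent.W900.PM.Orc

/-!
# Bets on the first strings of every length
-/

set_option autoImplicit false

namespace Pool.Agent.W900.PM

open Finset Filter Pool.Agent.NPC Pool.Agent.H620R2.Gauge
open Pool.Agent.W911.AL (poly_pow2)
open Pool.Agent.W911.KM

/-- the number of the string `str j` among the strings of the same length -/
def off (j : ℕ) : ℕ := j + 1 - 2 ^ (str j).length

/-- the string number `j` belongs to the bet number `n` -/
def bq (n j : ℕ) : Bool := decide ((str j).length = n) && decide (off j < 2 * n)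

theorem off_block {n i : ℕ} (hi : i < 2 ^ n) : off (2 ^ n - 1 + i) = i := by
  unfold off
  rw [length_str_block hi]
  have : 1 ≤ 2 ^ n := Nat.one_le_two_pow
  omega

theorem bq_block {n i : ℕ} (hi : i < 2 ^ n) : bq n (2 ^ n - 1 + i) = decide (i < 2 * n) := by
  unfold bq
  rw [off_block hi, length_str_block hi]
  simp

theorem bq_lt {n i : ℕ} (hi : i < 2 ^ n - 1) : bq n i = false := by
  have := length_str_lt hi
  unfold bq
  simp
  omega

/-- the letters of `w` with numbers in the bet agree with `a` -/
def ag (a : ℕ → Bool) (n : ℕ) (w : List Bool) : Bool :=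
  (List.range w.length).all (fun j => !(bq n j) || (w.getD j false == a j))

/-- the number of strings of the bet among the first `ℓ` strings -/
def cnt (n ℓ : ℕ) : ℕ := ((List.range ℓ).filter (fun j => bq n j)).length

/-- the bet -/
noncomputable def TT (a : ℕ → Bool) (n : ℕ) (w : List Bool) : ℝ :=
  if ag a n w = true then 2 ^ cnt n w.length / 2 ^ (n + 1) else 0

/-- all bets -/
noncomputable def DD (a : ℕ → Bool) (w : List Bool) : ℝ :=
  1 / 2 ^ (w.length + 1) + ∑ n ∈ range (w.length + 1), TT a n w

theorem TT_nonneg (a : ℕ → Bool) (n : ℕ) (w : List Bool) : 0 ≤ TT a n w := by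
  unfold TT
  split_ifs
  · positivity
  · exact le_rfl

theorem getD_append_lt {w : List Bool} {b : Bool} {j : ℕ} (hj : j < w.length) :
    (w ++ [b]).getD j false = w.getD j false := by
  rw [List.getD_eq_getElem?_getD, List.getD_eq_getElem?_getD, List.getElem?_append_left hj]

theorem ag_append (a : ℕ → Bool) (n : ℕ) (w : List Bool) (b : Bool) :
    ag a n (w ++ [b]) = (ag a n w && (!(bq n w.length) || (b == a w.length))) := by
  unfold ag
  rw [List.length_append, List.length_singleton, List.range_succ, List.all_append]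
  congr 1
  · rw [Bool.eq_iff_iff, List.all_eq_true, List.all_eq_true]
    refine forall_congr' fun j => forall_congr' fun hj => ?_
    rw [getD_append_lt (List.mem_range.1 hj)]
  · simp only [List.all_cons, List.all_nil, Bool.and_true]
    have h : (w ++ [b]).getD w.length false = b := by
      rw [List.getD_eq_getElem?_getD]
      simp
    rw [h]

theorem cnt_succ (n ℓ : ℕ) : cnt n (ℓ + 1) = cnt n ℓ + if bq n ℓ = true then 1 else 0 := by
  unfold cnt
  rw [List.range_succ, List.filter_append, List.length_append]
  congr 1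
  by_cases h : bq n ℓ = true <;> simp [h]

theorem TT_avg (a : ℕ → Bool) (n : ℕ) (w : List Bool) :
    TT a n (w ++ [false]) + TT a n (w ++ [true]) = 2 * TT a n w := by
  unfold TT
  simp only [ag_append, List.length_append, List.length_singleton, cnt_succ]
  cases h : bq n w.length
  · cases hag : ag a n w
    · simp
    · simp
      ring
  · cases hag : ag a n w
    · simp
    · cases hw : a w.length <;> simp [pow_succ] <;> ring

theorem length_str_le (j : ℕ) : (str j).length ≤ j := by
  rw [length_str]
  have h := Nat.log_lt_of_lt_pow (b := 2) (x := j + 1) (y := j + 1) (by omega)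
    (Nat.lt_two_pow_self (n := j + 1))
  omega

theorem TT_far (a : ℕ → Bool) {n : ℕ} {w : List Bool} (h : w.length ≤ n) :
    TT a n w = 1 / 2 ^ (n + 1) := by
  have h0 : ∀ j < w.length, bq n j = false := fun j hj => by
    have := length_str_le j
    unfold bq
    have h1 : (str j).length ≠ n := by omega
    simp [h1]
  have h1 : ag a n w = true := by
    unfold ag
    rw [List.all_eq_true]
    intro j hj
    simp [h0 j (List.mem_range.1 hj)]
  have h2 : cnt n w.length = 0 := by
    unfold cnt
    rw [List.length_eq_zero_iff, List.filter_eq_nil_iff]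
    intro j hj
    simp [h0 j (List.mem_range.1 hj)]
  unfold TT
  rw [if_pos h1, h2, pow_zero]

theorem DD_avg (a : ℕ → Bool) (w : List Bool) :
    DD a (w ++ [false]) + DD a (w ++ [true]) = 2 * DD a w := by
  unfold DD
  simp only [List.length_append, List.length_singleton]
  rw [Finset.sum_range_succ _ (w.length + 1), Finset.sum_range_succ _ (w.length + 1),
    TT_far a (n := w.length + 1) (w := w ++ [false]) (by simp),
    TT_far a (n := w.length + 1) (w := w ++ [true]) (by simp)]
  have h1 : ∑ n ∈ range (w.length + 1), TT a n (w ++ [false]) +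
      ∑ n ∈ range (w.length + 1), TT a n (w ++ [true]) =
      2 * ∑ n ∈ range (w.length + 1), TT a n w := by
    rw [← Finset.sum_add_distrib, Finset.mul_sum]
    exact Finset.sum_congr rfl fun n _ => TT_avg a n w
  have h2 : (1 : ℝ) / 2 ^ (w.length + 1 + 1) + 1 / 2 ^ (w.length + 1 + 1) =
      1 / 2 ^ (w.length + 1) := by
    rw [pow_succ _ (w.length + 1)]
    field_simp
    norm_num
  linarith

/-- the numerator -/
def numW (a : ℕ → Bool) (w : List Bool) : ℕ :=
  2 + ((List.range (w.length + 1)).map (fun n =>
    if ag a n w = true then 2 ^ (cnt n w.length + (w.length + 1 - n)) else 0)).sum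

theorem DD_eq (a : ℕ → Bool) (w : List Bool) : DD a w = (numW a w : ℝ) / 2 ^ (w.length + 2) := by
  unfold DD numW
  rw [Nat.cast_add, add_div]
  congr 1
  · rw [pow_succ _ (w.length + 1), Nat.cast_ofNat]
    field_simp
  · have h1 : (((List.range (w.length + 1)).map (fun n => if ag a n w = true then
        2 ^ (cnt n w.length + (w.length + 1 - n)) else 0)).sum : ℕ) =
        ∑ n ∈ range (w.length + 1), if ag a n w = true then
          2 ^ (cnt n w.length + (w.length + 1 - n)) else 0 := rfl
    rw [h1]
    push_cast
    rw [Finset.sum_div]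
    refine Finset.sum_congr rfl fun n hn => ?_
    rw [Finset.mem_range] at hn
    unfold TT
    by_cases h : ag a n w = true
    · rw [if_pos h, if_pos h]
      have h2 : w.length + 2 = (n + 1) + (w.length + 1 - n) := by omega
      rw [h2, pow_add _ (n + 1), pow_add _ (cnt n w.length)]
      field_simp
    · rw [if_neg h, if_neg h, zero_div]

theorem cnt_zero (n : ℕ) : ∀ ℓ : ℕ, ℓ ≤ 2 ^ n - 1 → cnt n ℓ = 0 := by
  intro ℓ
  induction ℓ with
  | zero => intro _; rfl
  | succ ℓ ih =>
    intro h
    rw [cnt_succ, ih (by omega), bq_lt (by omega)]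
    simp

theorem cnt_block (n : ℕ) : ∀ i : ℕ, i ≤ 2 ^ n → cnt n (2 ^ n - 1 + i) = min i (2 * n) := by
  intro i
  induction i with
  | zero =>
    intro _
    rw [Nat.zero_min]
    exact cnt_zero n _ le_rfl
  | succ i ih =>
    intro h
    rw [← Nat.add_assoc, cnt_succ, ih (by omega), bq_block (by omega)]
    by_cases h1 : i < 2 * n
    · simp [h1]
      omega
    · simp [h1]
      omega

/-- the success of the bets -/
theorem DD_large {a : ℕ → Bool} {L : Set (List Bool)} {n k : ℕ}
    (h : ∀ i < 2 * n, (a (2 ^ n - 1 + i) = true ↔ str (2 ^ n - 1 + i) ∈ L)) (hk : k + 1 ≤ n)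
    (hn : 3 ≤ n) : 1 ≤ DD a (prefL L (2 ^ (n + 1) - 1)) / 2 ^ k := by
  classical
  set w := prefL L (2 ^ (n + 1) - 1) with hw
  have hl : w.length = 2 ^ (n + 1) - 1 := length_prefL _ _
  have hlt : 2 * n ≤ 2 ^ n := by
    clear h hk hl hw
    induction n, hn using Nat.le_induction with
    | base => norm_num
    | succ n hn ih => rw [pow_succ]; omega
  have hpow : 2 ^ (n + 1) - 1 = 2 ^ n - 1 + 2 ^ n := by
    have : 1 ≤ 2 ^ n := Nat.one_le_two_pow
    rw [pow_succ]
    omega
  have h1 : ag a n w = true := by
    unfold ag
    rw [List.all_eq_true]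
    intro j hj
    rw [List.mem_range, hl] at hj
    by_cases hjn : bq n j = true
    · have hj2 : 2 ^ n - 1 ≤ j := by
        by_contra hc
        push Not at hc
        rw [bq_lt hc] at hjn
        exact absurd hjn (by simp)
      obtain ⟨i, rfl⟩ := Nat.exists_eq_add_of_le hj2
      have hi : i < 2 ^ n := by omega
      rw [bq_block hi, decide_eq_true_iff] at hjn
      have h2 : w.getD (2 ^ n - 1 + i) false = decide (str (2 ^ n - 1 + i) ∈ L) := by
        rw [hw, prefL, List.getD_eq_getElem?_getD]
        simp [hj]
      rw [h2]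
      have h3 : decide (str (2 ^ n - 1 + i) ∈ L) = a (2 ^ n - 1 + i) := by
        rw [Bool.eq_iff_iff, decide_eq_true_iff]
        exact (h i hjn).symm
      simp [h3]
    · simp [hjn]
  have h2 : TT a n w = 2 ^ (2 * n) / 2 ^ (n + 1) := by
    unfold TT
    rw [if_pos h1, hl, hpow, cnt_block n _ le_rfl, min_eq_right hlt]
  have h3 : TT a n w ≤ DD a w := by
    unfold DD
    have h5 : TT a n w ≤ ∑ m ∈ range (w.length + 1), TT a m w := by
      refine Finset.single_le_sum (fun m _ => TT_nonneg a m w) ?_
      rw [Finset.mem_range, hl, pow_succ]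
      have : n < 2 ^ n := Nat.lt_two_pow_self
      omega
    have h6 : (0 : ℝ) ≤ 1 / 2 ^ (w.length + 1) := by positivity
    linarith
  rw [le_div_iff₀ (by positivity), one_mul]
  refine le_trans ?_ h3
  rw [h2, le_div_iff₀ (by positivity), ← pow_add]
  exact pow_le_pow_right₀ (by norm_num) (by omega)

end Pool.Agent.W900.PM
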