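import Pool.Agent.W900.PM.Bet

/-!
# The bets are computable
-/

set_option autoImplicit false

namespace Pool.Agent.W900.PM

open Finset Filter Pool.Agent.NPC Pool.Agent.H620R2.Gauge
open Pool.Agent.W911.AL (poly_pow2)
open Pool.Agent.W911.KM
open Pool.Agent.W900.RB (reg)
open Pool.Agent.H622R2 (poly_pairBits)

attribute [local irreducible] unpair

theorem poly_str {α : Type} [TEnc α] {j : α → ℕ} (hj : Poly j) : Poly (fun a => str (j a)) := by
  unfold str
  exact Poly.tail (Poly.reverse (Poly.natBits (Poly.succ hj)))

theorem poly_off {α : Type} [TEnc α] {j : α → ℕ} (hj : Poly j) : Poly (fun a => off (j a)) := by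
  unfold off
  exact Poly.sub (Poly.succ hj) (poly_pow2 (UPoly.length (poly_str hj)))

theorem poly_bq {α : Type} [TEnc α] {n j : α → ℕ} (hn : Poly n) (hj : Poly j) :
    Poly (fun a => bq (n a) (j a)) := by
  unfold bq
  exact Poly.and (Poly.decide_eq (Poly.length (poly_str hj)) hn)
    (Poly.decide_lt (poly_off hj) (Poly.mul (NPC.Poly.const 2) hn))

theorem poly_ag {α : Type} [TEnc α] {w l : α → List Bool} {n : α → ℕ} (hw : Poly w) (hl : Poly l)
    (hn : Poly n) : Poly (fun i => ag (fun j => (l i).getD j false) (n i) (w i)) := by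
  unfold ag
  refine Poly.all (p := fun (i : α) (j : ℕ) => !(bq (n i) j) ||
    ((w i).getD j false == (l i).getD j false)) (UPoly.range (UPoly.length hw)) ?_
  have h1 : Poly (fun p : α × ℕ => bq (n p.1) p.2) :=
    poly_bq (hn.comp (Poly.fst Poly.id)) (Poly.snd Poly.id)
  have h2 : Poly (fun p : α × ℕ => (w p.1).getD p.2 false) :=
    Poly.getD (hw.comp (Poly.fst Poly.id)) (Poly.snd Poly.id) (NPC.Poly.const false)
  have h3 : Poly (fun p : α × ℕ => (l p.1).getD p.2 false) :=
    Poly.getD (hl.comp (Poly.fst Poly.id)) (Poly.snd Poly.id) (NPC.Poly.const false)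
  exact Poly.or (Poly.not h1) ((Poly.decide_eq h2 h3).congr fun p => by
    cases (w p.1).getD p.2 false <;> cases (l p.1).getD p.2 false <;> rfl)

theorem poly_cnt {α : Type} [TEnc α] {n ℓ : α → ℕ} (hn : Poly n) (hℓ : UPoly ℓ) :
    UPoly (fun i => cnt (n i) (ℓ i)) := by
  unfold cnt
  refine UPoly.length (Poly.filter (p := fun (i : α) (j : ℕ) => bq (n i) j)
    (UPoly.range hℓ) ?_)
  exact poly_bq (hn.comp (Poly.fst Poly.id)) (Poly.snd Poly.id)

theorem poly_numW {α : Type} [TEnc α] {w l : α → List Bool} (hw : Poly w) (hl : Poly l) :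
    Poly (fun i => numW (fun j => (l i).getD j false) (w i)) := by
  have hw' : Poly (fun p : α × ℕ => w p.1) := hw.comp (Poly.fst Poly.id)
  have hl' : Poly (fun p : α × ℕ => l p.1) := hl.comp (Poly.fst Poly.id)
  have hn' : Poly (fun p : α × ℕ => p.2) := Poly.snd Poly.id
  have h1 : UPoly (fun p : α × ℕ => cnt p.2 (w p.1).length + ((w p.1).length + 1 - p.2)) := by
    refine UPoly.add (poly_cnt hn' (UPoly.length hw')) ?_
    refine UPoly.of_le (Poly.sub (Poly.succ (Poly.length hw')) hn')
      (UPoly.add (UPoly.length hw') (UPoly.const 1)) fun p => by omega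
  unfold numW
  refine Poly.add (NPC.Poly.const 2) (Poly.sum (NPC.Poly.map (F := fun (i : α) (n : ℕ) =>
    if ag (fun j => (l i).getD j false) n (w i) = true then
      2 ^ (cnt n (w i).length + ((w i).length + 1 - n)) else 0)
    (UPoly.range (UPoly.add (UPoly.length hw) (UPoly.const 1))) ?_))
  exact Poly.ite ((Poly.decide_eq (poly_ag hw' hl' hn') (NPC.Poly.const true)))
    (poly_pow2 h1) (NPC.Poly.const 0)

theorem numW_congr {a a' : ℕ → Bool} {w : List Bool} (h : ∀ j < w.length, a j = a' j) :
    numW a w = numW a' w := by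
  have h1 : ∀ n, ag a n w = ag a' n w := by
    intro n
    unfold ag
    rw [Bool.eq_iff_iff, List.all_eq_true, List.all_eq_true]
    refine forall_congr' fun j => forall_congr' fun hj => ?_
    rw [h j (List.mem_range.1 hj)]
  unfold numW
  simp only [h1]

/-- the predictions -/
def aS (A : Oracle) (j : ℕ) : Bool := syn A (str j).length (off j)

theorem pow_len_le (j : ℕ) : 2 ^ (str j).length ≤ j + 1 := by
  have h := le_idx (str j)
  rwa [idx_str] at h

theorem poly_pos {α : Type} [TEnc α] {j W : α → ℕ} {p : α → ℕ} (hj : Poly j) (hW : UPoly W)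
    (hp : Poly p) : Poly (fun a => pos (str (min (j a) (W a))).length (p a)) := by
  unfold pos reg
  have h1 : Poly (fun a => min (j a) (W a)) := Poly.min hj hW.toPoly
  have h2 : UPoly (fun a => 2 ^ (str (min (j a) (W a))).length) := by
    refine UPoly.of_le (poly_pow2 (UPoly.length (poly_str h1))) (UPoly.add hW (UPoly.const 1))
      fun a => ?_
    have h3 := pow_len_le (min (j a) (W a))
    have h4 : min (j a) (W a) ≤ W a := min_le_right _ _
    omega
  exact Poly.append (Pool.Agent.H628R3.RO.p_replicate h2 true)
    (Poly.cons (NPC.Poly.const false) (poly_str hp))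

/-- the predictions from the answers -/
def aL (W B : ℕ) (l : List Bool) (j : ℕ) : Bool :=
  par (2 ^ (2 * (str (min j W)).length + 1)) (fun p => l.getD (min j W * B + p) false &&
    (str p).getD (off (min j W)) false)

theorem poly_aL {α : Type} [TEnc α] {W B j : α → ℕ} {l : α → List Bool} (hW : UPoly W)
    (hB : Poly B) (hl : Poly l) (hj : Poly j) :
    Poly (fun a => aL (W a) (B a) (l a) (j a)) := by
  have h1 : Poly (fun a => min (j a) (W a)) := Poly.min hj hW.toPoly
  have h2 : UPoly (fun a => 2 ^ (2 * (str (min (j a) (W a))).length + 1)) := by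
    refine UPoly.of_le (poly_pow2 (UPoly.add (UPoly.mul (UPoly.const 2)
      (UPoly.length (poly_str h1))) (UPoly.const 1)))
      (UPoly.mul (UPoly.const 2) (UPoly.mul (UPoly.add hW (UPoly.const 1))
        (UPoly.add hW (UPoly.const 1)))) fun a => ?_
    have h3 := pow_len_le (min (j a) (W a))
    have h4 : min (j a) (W a) ≤ W a := min_le_right _ _
    have h5 : 2 ^ (str (min (j a) (W a))).length ≤ W a + 1 := by omega
    calc 2 ^ (2 * (str (min (j a) (W a))).length + 1)
        = 2 * (2 ^ (str (min (j a) (W a))).length * 2 ^ (str (min (j a) (W a))).length) := by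
          rw [pow_succ, two_mul, pow_add]
          ring
      _ ≤ 2 * ((W a + 1) * (W a + 1)) := Nat.mul_le_mul_left _ (Nat.mul_le_mul h5 h5)
  unfold aL par
  have h3 : Poly (fun a => (List.range (2 ^ (2 * (str (min (j a) (W a))).length + 1))).filter
      (fun p => (l a).getD (min (j a) (W a) * B a + p) false &&
        (str p).getD (off (min (j a) (W a))) false)) := by
    apply Poly.filter (p := fun (a : α) (p : ℕ) =>
      (l a).getD (min (j a) (W a) * B a + p) false &&
        (str p).getD (off (min (j a) (W a))) false) h2.range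
    have h4 : Poly (fun q : α × ℕ => min (j q.1) (W q.1)) := h1.comp (Poly.fst Poly.id)
    apply Poly.and
    · apply Poly.getD (hl.comp (Poly.fst Poly.id)) _ (NPC.Poly.const false)
      exact Poly.add (Poly.mul h4 (hB.comp (Poly.fst Poly.id))) (Poly.snd Poly.id)
    · exact Poly.getD (poly_str (Poly.snd Poly.id)) (poly_off h4) (NPC.Poly.const false)
  exact Poly.decide_eq (Poly.mod (Poly.length h3) (NPC.Poly.const 2)) (NPC.Poly.const 1)

/-- the number of strings asked for every bit -/
def BB (W : ℕ) : ℕ := 2 * ((W + 1) * (W + 1))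

theorem aL_eq (A : Oracle) {W j : ℕ} (hj : j < W) :
    aL W (BB W) (((List.range (W * BB W)).map (fun u =>
      pos (str (min (u / BB W) W)).length (u % BB W))).map A) j = aS A j := by
  unfold aL aS syn
  rw [min_eq_left hj.le]
  apply par_congr
  intro p hp
  have hB : 2 ^ (2 * (str j).length + 1) ≤ BB W := by
    have h3 := pow_len_le j
    have h5 : 2 ^ (str j).length ≤ W + 1 := by omega
    calc 2 ^ (2 * (str j).length + 1)
        = 2 * (2 ^ (str j).length * 2 ^ (str j).length) := by
          rw [pow_succ, two_mul, pow_add]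
          ring
      _ ≤ 2 * ((W + 1) * (W + 1)) := Nat.mul_le_mul_left _ (Nat.mul_le_mul h5 h5)
  have hpB : p < BB W := by omega
  have hB0 : 0 < BB W := by omega
  have h1 : j * BB W + p < W * BB W := by
    calc j * BB W + p < j * BB W + BB W := by omega
      _ = (j + 1) * BB W := by ring
      _ ≤ W * BB W := Nat.mul_le_mul_right _ hj
  congr 1
  rw [List.map_map, List.getD_eq_getElem?_getD, List.getElem?_map, List.getElem?_range h1]
  simp only [Option.map_some, Option.getD_some, Function.comp]
  have h2 : (j * BB W + p) / BB W = j := by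
    rw [mul_comm, Nat.mul_add_div hB0, Nat.div_eq_of_lt hpB, add_zero]
  have h3 : (j * BB W + p) % BB W = p := by
    rw [mul_comm, Nat.mul_add_mod, Nat.mod_eq_of_lt hpB]
  rw [h2, h3, min_eq_left hj.le]

/-- **A null cover from the sums of the indices.** -/
theorem null_of_syn (A : Oracle) (X : Set (Set (List Bool)))
    (h : ∀ L ∈ X, ∀ N, ∃ n ≥ N, ∀ i < 2 * n,
      (syn A n i = true ↔ str (2 ^ n - 1 + i) ∈ L)) : NullP A X := by
  classical
  have hD0 : ∀ w, 0 ≤ DD (aS A) w := by
    intro w
    unfold DD
    have h1 : 0 ≤ ∑ n ∈ range (w.length + 1), TT (aS A) n w :=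
      Finset.sum_nonneg fun n _ => TT_nonneg _ _ _
    positivity
  refine ⟨fun i w => DD (aS A) w / 2 ^ i, ⟨fun i w => div_nonneg (hD0 w) (by positivity),
    fun i w => ?_, fun i => ?_, fun i L hL => ?_⟩, ?_⟩
  · beta_reduce
    have h1 := DD_avg (aS A) w
    have h2 : (DD (aS A) (w ++ [false]) / 2 ^ i + DD (aS A) (w ++ [true]) / 2 ^ i) / 2 =
        ((DD (aS A) (w ++ [false]) + DD (aS A) (w ++ [true])) / 2) / 2 ^ i := by ring
    rw [h2, h1]
    apply le_of_eq
    ring
  · beta_reduce
    have h1 : DD (aS A) [] = 1 := by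
      unfold DD
      rw [List.length_nil, Finset.sum_range_one, TT_far (aS A) (n := 0) (w := []) (by simp)]
      norm_num
    rw [h1]
  · obtain ⟨n, hn, h1⟩ := h L hL (i + 4)
    refine ⟨2 ^ (n + 1) - 1, DD_large (fun i hi => ?_) (by omega) (by omega)⟩
    have h2 : 2 * n ≤ 2 ^ n := by
      have h3 : n < 2 ^ n := Nat.lt_two_pow_self
      obtain ⟨n, rfl⟩ : ∃ n', n = n' + 1 := ⟨n - 1, by omega⟩
      have h4 : n < 2 ^ n := Nat.lt_two_pow_self
      rw [pow_succ]
      omega
    rw [← h1 i hi]
    unfold aS
    rw [length_str_block (by omega), off_block (by omega)]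
  -- the computation
  have hw : Poly (fun z : List Bool => (unpair (unpair z).2).2) :=
    Poly.snd (poly_unpair.comp (Poly.snd poly_unpair))
  have hW : UPoly (fun z : List Bool => (unpair (unpair z).2).2.length) := UPoly.length hw
  have hBU : UPoly (fun z : List Bool => BB (unpair (unpair z).2).2.length) := by
    unfold BB
    exact UPoly.mul (UPoly.const 2) (UPoly.mul (UPoly.add hW (UPoly.const 1))
      (UPoly.add hW (UPoly.const 1)))
  have hQ : Poly (fun z : List Bool => (List.range ((unpair (unpair z).2).2.length *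
      BB (unpair (unpair z).2).2.length)).map
      (fun u => pos (str (min (u / BB (unpair (unpair z).2).2.length)
        (unpair (unpair z).2).2.length)).length
          (u % BB (unpair (unpair z).2).2.length))) := by
    refine NPC.Poly.map (F := fun (z : List Bool) (u : ℕ) =>
      pos (str (min (u / BB (unpair (unpair z).2).2.length)
        (unpair (unpair z).2).2.length)).length
          (u % BB (unpair (unpair z).2).2.length)) (UPoly.mul hW hBU).range ?_
    have hB1 : Poly (fun p : List Bool × ℕ => BB (unpair (unpair p.1).2).2.length) :=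
      hBU.toPoly.comp (Poly.fst Poly.id)
    exact poly_pos (Poly.div (Poly.snd Poly.id) hB1) (hW.comp (Poly.fst Poly.id))
      (Poly.mod (Poly.snd Poly.id) hB1)
  have hH : Poly (fun p : List Bool × List Bool => pairBits
      (Nat.bits (numW (fun j => ((List.range (unpair (unpair p.1).2).2.length).map
        (fun j => aL (unpair (unpair p.1).2).2.length (BB (unpair (unpair p.1).2).2.length)
          p.2 j)).getD j false) (unpair (unpair p.1).2).2))
      (pairBits [] (List.replicate ((unpair p.1).1.length +
        (unpair (unpair p.1).2).2.length + 2) true))) := by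
    have h1 : Poly (fun p : List Bool × List Bool => (unpair (unpair p.1).2).2) :=
      hw.comp (Poly.fst Poly.id)
    have h2 : Poly (fun p : List Bool × List Bool => (unpair p.1).1) :=
      (Poly.fst poly_unpair).comp (Poly.fst Poly.id)
    have h3 : Poly (fun p : List Bool × List Bool =>
        (List.range (unpair (unpair p.1).2).2.length).map
        (fun j => aL (unpair (unpair p.1).2).2.length (BB (unpair (unpair p.1).2).2.length)
          p.2 j)) := by
      refine NPC.Poly.map (F := fun (p : List Bool × List Bool) (j : ℕ) =>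
        aL (unpair (unpair p.1).2).2.length (BB (unpair (unpair p.1).2).2.length) p.2 j)
        (hW.comp (Poly.fst Poly.id)).range ?_
      exact poly_aL (hW.comp (Poly.fst (Poly.fst Poly.id)))
        (hBU.toPoly.comp (Poly.fst (Poly.fst Poly.id))) (Poly.snd (Poly.fst Poly.id))
        (Poly.snd Poly.id)
    refine poly_pairBits (Poly.natBits (poly_numW h1 h3))
      (poly_pairBits (NPC.Poly.const []) (Pool.Agent.H628R3.RO.p_replicate ?_ true))
    exact UPoly.add (UPoly.add (UPoly.length h2) (UPoly.length h1)) (UPoly.const 2)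
  refine ⟨_, IsFP.tt (A := A) hQ hH, fun i r w => ?_⟩
  have e1 : (unpair (W911.KM.inp i r w)).1.length = i := by
    unfold W911.KM.inp
    rw [unpair_pairBits, List.length_replicate]
  have e2 : (unpair (unpair (W911.KM.inp i r w)).2).2 = w := by
    unfold W911.KM.inp
    rw [unpair_pairBits, unpair_pairBits]
  simp only [e1, e2]
  have e3 : numW (fun j => ((List.range w.length).map (fun j => aL w.length (BB w.length)
      (((List.range (w.length * BB w.length)).map (fun u =>
        pos (str (min (u / BB w.length) w.length)).length (u % BB w.length))).map A) j)).getD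
          j false) w = numW (aS A) w := by
    apply numW_congr
    intro j hj
    rw [List.getD_eq_getElem?_getD]
    simp only [List.getElem?_map, List.getElem?_range hj, Option.map_some, Option.getD_some]
    exact aL_eq A hj
  rw [e3]
  have e4 : dy (pairBits (Nat.bits (numW (aS A) w))
      (pairBits [] (List.replicate (i + w.length + 2) true))) = DD (aS A) w / 2 ^ i := by
    unfold dy
    simp only [unpair_pairBits, valB_bits, valB_nil, List.length_replicate]
    rw [DD_eq, Nat.cast_zero, sub_zero, div_div, ← pow_add]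
    congr 2
    omega
  rw [e4, sub_self, abs_zero]
  positivity

end Pool.Agent.W900.PM
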